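import Mathlib
import Pool.Agent.Results.MP_daa8b9_co.PenroseMinusOne
import Pool.Agent.Y494.PN.Asm

/-!
# No constant multiple repairs Szegedy's divisibility for the Penrose polynomial at `-1`

`PlaneCubicGraph`, `numColourings` (the number `F_G(4)` of 3-edge-colourings) and `penrose` are the
definitions of the starting file `PenroseMinusOne`. In `G` the half-edge after `x` around its
endpoint is `G.rot x`, so `(G.rot x).1 ≠ x.1` for all `x` says that `G` has no loops (in a cubic
graph).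
-/

set_option autoImplicit false

namespace Pool.Agent.Results.MP_daa8b9_co.NoConstantMultiple

open Polynomial Pool.Agent.Results.MP_daa8b9_co.PenroseMinusOne Pool.Agent.Y494.PN

theorem nonempty_edges {E : Type} [Fintype E] (G : PlaneCubicGraph E) : Nonempty E := by
  by_contra h
  rw [not_nonempty_iff] at h
  have h1 := G.planar
  have h2 : ∀ r : Setoid (E × Bool), Nat.card (Quotient r) = 0 := by
    intro r
    have : IsEmpty (Quotient r) := ⟨fun q => by
      obtain ⟨a, rfl⟩ := Quotient.exists_rep q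
      exact h.elim a.1⟩
    exact Nat.card_of_isEmpty
  rw [h2, h2, Nat.card_of_isEmpty] at h1
  omega

/-- One vertex replacement. -/
theorem replace (E : Type) [Fintype E] [DecidableEq E] (G : PlaneCubicGraph E)
    (hG : ∀ x, (G.rot x).1 ≠ x.1) : ∃ S : PlaneCubicGraph (E ⊕ Fin 18),
      (∀ x, (S.rot x).1 ≠ x.1) ∧ S.numColourings = 9 * G.numColourings ∧
      S.penrose.eval (-1) = 13161 * G.penrose.eval (-1) := by
  obtain ⟨e⟩ := nonempty_edges G
  obtain ⟨S, h0, h1, h2⟩ := step₀ E G (e, false) hG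
  exact ⟨S, h0, by omega, by linarith⟩

/-- Iterated vertex replacement. -/
theorem replace_iter (m : ℕ) (E : Type) [Fintype E] [DecidableEq E] (G : PlaneCubicGraph E)
    (hG : ∀ x, (G.rot x).1 ≠ x.1) : ∃ (E' : Type) (_ : Fintype E') (_ : DecidableEq E')
      (S : PlaneCubicGraph E'), Nat.card E' = Nat.card E + 18 * m ∧ (∀ x, (S.rot x).1 ≠ x.1) ∧
      S.numColourings = 9 ^ m * G.numColourings ∧
      S.penrose.eval (-1) = 13161 ^ m * G.penrose.eval (-1) := by
  induction m with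
  | zero => exact ⟨E, inferInstance, inferInstance, G, by simp, hG, by simp, by simp⟩
  | succ m ih =>
    obtain ⟨E', hF, hD, S, h0, h1, h2, h3⟩ := ih
    obtain ⟨S', g1, g2, g3⟩ := replace E' S h1
    refine ⟨E' ⊕ Fin 18, inferInstance, inferInstance, S', ?_, g1, ?_, ?_⟩
    · rw [Nat.card_sum, h0, Nat.card_fin]
      ring
    · rw [g2, h2]
      ring
    · rw [g3, h3]
      ring

theorem not_dvd (c : ℤ) (hc : c ≠ 0) (m : ℕ) (hm : c.natAbs < 3 ^ m) (f : ℤ) :
    ¬ (9 ^ m * f ∣ c * 13161 ^ m) := by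
  intro h
  have h1 : (3 : ℤ) ^ m * 3 ^ m ∣ 3 ^ m * (c * 4387 ^ m) := by
    have e1 : (9 : ℤ) ^ m = 3 ^ m * 3 ^ m := by rw [← mul_pow]; norm_num
    have e2 : c * 13161 ^ m = 3 ^ m * (c * 4387 ^ m) := by
      have : (13161 : ℤ) = 3 * 4387 := by norm_num
      rw [this, mul_pow]; ring
    rw [e1, e2] at h
    exact dvd_trans (Dvd.intro _ rfl) h
  have h2 : (3 : ℤ) ^ m ∣ c * 4387 ^ m := by
    rcases h1 with ⟨k, hk⟩
    refine ⟨k, ?_⟩
    have h3 : (3 : ℤ) ^ m ≠ 0 := by positivity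
    apply mul_left_cancel₀ h3
    rw [hk]; ring
  have hcop : IsCoprime ((3 : ℤ) ^ m) (4387 ^ m) := by
    apply IsCoprime.pow
    exact ⟨-1462, 1, by norm_num⟩
  have h4 : (3 : ℤ) ^ m ∣ c := hcop.dvd_of_dvd_mul_right h2
  have h5 := Int.le_of_dvd (Int.natAbs_pos.2 hc |> fun h => by exact_mod_cast h)
    ((Int.dvd_natAbs).2 h4)
  have h6 : ((c.natAbs : ℕ) : ℤ) < 3 ^ m := by exact_mod_cast hm
  omega

/-- For every `G` with `P_G(-1) ≠ 0` and every `D ≠ 0` an iterated replacement of `G` violates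
divisibility even after multiplication by `D`. -/
theorem above (E : Type) [Fintype E] [DecidableEq E] (G : PlaneCubicGraph E)
    (hG : ∀ x, (G.rot x).1 ≠ x.1) (hP : G.penrose.eval (-1) ≠ 0) (D : ℤ) (hD : D ≠ 0) :
    ∃ (m : ℕ) (E' : Type) (_ : Fintype E') (_ : DecidableEq E') (S : PlaneCubicGraph E'),
      Nat.card E' = Nat.card E + 18 * m ∧ S.numColourings = 9 ^ m * G.numColourings ∧
      S.penrose.eval (-1) = 13161 ^ m * G.penrose.eval (-1) ∧
      ¬ ((S.numColourings : ℤ) ∣ D * S.penrose.eval (-1)) := by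
  obtain ⟨E', hF, hD', S, h0, h1, h2, h3⟩ :=
    replace_iter (D * G.penrose.eval (-1)).natAbs E G hG
  refine ⟨_, E', hF, hD', S, h0, h2, h3, ?_⟩
  rw [h2, h3]
  intro h
  refine not_dvd (D * G.penrose.eval (-1)) (mul_ne_zero hD hP) _
    (Nat.lt_pow_self (by norm_num)) (G.numColourings : ℤ) ?_
  push_cast at h
  have e : D * G.penrose.eval (-1) * 13161 ^ (D * G.penrose.eval (-1)).natAbs =
      D * (13161 ^ (D * G.penrose.eval (-1)).natAbs * G.penrose.eval (-1)) := by ring
  rw [e]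
  exact h

/-- **No constant multiple repairs Szegedy's divisibility.**
(1) Every loopless connected plane cubic graph `G` extends (one vertex is replaced by a planar piece
with 18 edges) to a loopless connected plane cubic graph `S` with `F_S(4) = 9 F_G(4)` and
`P_S(-1) = 13161 P_G(-1)`.
(2) If moreover `P_G(-1) ≠ 0` then for every `D ≠ 0` some `m`-fold extension `S` of `G` has
`F_S(4) ∤ D P_S(-1)`.
(3) For every `n` there is a connected plane cubic graph with `21 + 18 n` edges,
`F(4) = 54 * 9 ^ n` and `P(-1) = -78966 * 13161 ^ n`; it is a counterexample to Szegedy's question.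
(4) For every `D ≥ 1` there is a connected plane cubic graph `G` with `F_G(4) ∤ D P_G(-1)`. -/
theorem result :
    (∀ (E : Type) [Fintype E] [DecidableEq E] (G : PlaneCubicGraph E),
      (∀ x, (G.rot x).1 ≠ x.1) → ∃ S : PlaneCubicGraph (E ⊕ Fin 18),
        (∀ x, (S.rot x).1 ≠ x.1) ∧ S.numColourings = 9 * G.numColourings ∧
        S.penrose.eval (-1) = 13161 * G.penrose.eval (-1)) ∧
    (∀ (E : Type) [Fintype E] [DecidableEq E] (G : PlaneCubicGraph E),
      (∀ x, (G.rot x).1 ≠ x.1) → G.penrose.eval (-1) ≠ 0 → ∀ D : ℤ, D ≠ 0 →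
      ∃ (m : ℕ) (E' : Type) (_ : Fintype E') (_ : DecidableEq E') (S : PlaneCubicGraph E'),
        Nat.card E' = Nat.card E + 18 * m ∧ S.numColourings = 9 ^ m * G.numColourings ∧
        S.penrose.eval (-1) = 13161 ^ m * G.penrose.eval (-1) ∧
        ¬ ((S.numColourings : ℤ) ∣ D * S.penrose.eval (-1))) ∧
    (∀ n : ℕ, ∃ (E : Type) (_ : Fintype E) (_ : DecidableEq E) (G : PlaneCubicGraph E),
      Nat.card E = 21 + 18 * n ∧ G.numColourings = 54 * 9 ^ n ∧
      G.penrose.eval (-1) = -78966 * 13161 ^ n ∧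
      ¬ ((G.numColourings : ℤ) ∣ G.penrose.eval (-1))) ∧
    (∀ D : ℕ, 1 ≤ D → ∃ (E : Type) (_ : Fintype E) (_ : DecidableEq E) (G : PlaneCubicGraph E),
      ¬ ((G.numColourings : ℤ) ∣ (D : ℤ) * G.penrose.eval (-1))) := by
  refine ⟨?_, ?_, ?_, ?_⟩
  · intro E _ _ G hG
    exact replace E G hG
  · intro E _ _ G hG hP D hD
    exact above E G hG hP D hD
  · intro n
    obtain ⟨E, hF, hD, G, h0, h1, h2, h3⟩ := chain n
    refine ⟨E, hF, hD, G, h0, h2, h3, ?_⟩
    rw [h2, h3]
    have h := ndvd 1 n le_rfl (Nat.one_lt_pow (by omega) (by norm_num))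
    simpa only [Nat.cast_one, one_mul] using h
  · intro D hD
    obtain ⟨E, hF, hDE, G, h0, h1, h2, h3⟩ := chain D
    refine ⟨E, hF, hDE, G, ?_⟩
    rw [h2, h3]
    refine ndvd D D hD (lt_trans (Nat.lt_pow_self (by norm_num : 1 < 3)) ?_)
    exact Nat.pow_lt_pow_right (by norm_num) (by omega)

end Pool.Agent.Results.MP_daa8b9_co.NoConstantMultiple
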